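import Pool.Agent.Helper66_D2.Stmts

/-!
# Squad PP, part D2: module CPL
-/

open scoped BigOperators

noncomputable section

namespace Pool.Agent.PP.CD2.H52

open Pool.Agent.Helper51_AWC Pool.Agent.Helper79_WRA

/-- CPL -/
theorem cpl (hSPA : SpaStmt) : CplStmt := by
  intro ℓ _ F _ hF G _ _ n N P y₁ b w hD V _ _ ρ Z Y hZY hYf hZ hY
  obtain ⟨p, hp⟩ := LinearMap.exists_leftInverse_of_injective Z.subtype (Submodule.ker_subtype Z)
  have hp' : ∀ v : Z, p v = v := fun v => by
    have := LinearMap.congr_fun hp v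
    simpa using this
  have hfix : ∀ v ∈ Y, evV ρ (bY y₁ b) v = v ∧ evV ρ w v = 0 := fun v hv => hYf hv
  obtain ⟨g', h1, h2⟩ := hSPA ℓ F hF G n N P y₁ b w hD V V ρ ρ Y hY (fun v hv => (hfix v hv).1)
    (Z.subtype ∘ₗ p) (by
      intro v hv
      rw [(hfix v hv).2, map_zero]
      exact ((hfix _ (hZY (p v).2)).2).symm)
  have h3 : ∀ v ∈ Y, g' v ∈ Z := by
    intro v hv
    have := h2 Y le_rfl hY Z hZ 0 (by intro k _ v _; simp) (by
      intro v _
      simp) v hv
    simpa using this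
  have h4 : ∀ v ∈ Z, g' v = v := by
    intro v hv
    have := h2 Z hZY hZ ⊥ (by
      intro k _ v hv
      rw [Submodule.mem_bot] at hv ⊢
      rw [hv, map_zero]) LinearMap.id (by intro k _ v _; rfl) (by
      intro v hv
      rw [Submodule.mem_bot, sub_eq_zero]
      change ((p v : Z) : V) = v
      rw [hp' ⟨v, hv⟩]) v hv
    rw [Submodule.mem_bot, sub_eq_zero] at this
    exact this
  refine ⟨Y ⊓ LinearMap.ker g', ?_, ?_, ?_⟩
  · intro k hk v hv
    rw [Submodule.mem_inf, LinearMap.mem_ker] at hv ⊢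
    exact ⟨hY k hk v hv.1, by rw [h1 k hk v hv.1, hv.2, map_zero]⟩
  · rw [eq_bot_iff]
    intro v hv
    rw [Submodule.mem_inf, Submodule.mem_inf, LinearMap.mem_ker] at hv
    rw [Submodule.mem_bot, ← h4 v hv.2, hv.1.2]
  · apply le_antisymm
    · exact sup_le inf_le_left hZY
    · intro v hv
      have h5 : v = (v - g' v) + g' v := by abel
      rw [h5]
      refine Submodule.add_mem_sup ?_ (h3 v hv)
      rw [Submodule.mem_inf, LinearMap.mem_ker]
      refine ⟨Y.sub_mem hv (hZY (h3 v hv)), ?_⟩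
      rw [map_sub, h4 _ (h3 v hv), sub_self]

end Pool.Agent.PP.CD2.H52
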