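import Pool.Agent.Helper66_D2.Stmts
import Pool.Agent.Helper91_D1.Fr1

/-!
# Squad PP, part D2: module FR1
-/

open scoped BigOperators

noncomputable section

namespace Pool.Agent.PP.CD2.H52

open Pool.Agent.Helper51_AWC Pool.Agent.Helper79_WRA Pool.Agent.PP Pool.Agent.PP.D1
  Pool.Agent.PP.D1.H91

/-- FR1 -/
theorem fr1 (hFRA : FraStmt) (hSTW : StwStmt) : Fr1Stmt := by
  intro ℓ hℓ F _ hF G _ _ n' N P y₁ b w' h n σ hσ hb
  classical
  have := hF.closed
  have := hF.char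
  have := Fintype.ofFinite G
  have := Fintype.ofFinite N
  have := h.normal
  obtain ⟨-, -, -, -, -, -, -, hrf, -, -, -⟩ := hSTW ℓ F hF G n' N P y₁ b w' h (Fin n → F) (mrep σ)
  refine lt_of_le_of_ne hrf ?_
  intro heq
  have hbv : ∀ v, evV (mrep σ) b v = v := by
    intro v
    rw [evV_apply]
    have h1 : (ev σ b).mulVec v = v := by rw [hb, Matrix.one_mulVec]
    rw [ev, finsum_eq_sum_of_fintype] at h1
    refine Eq.trans ?_ h1
    have h2 : (∑ t : G, b t • σ t).mulVec v = Matrix.toLin' (∑ t : G, b t • σ t) v := rfl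
    rw [h2, map_sum, LinearMap.sum_apply]
    refine Finset.sum_congr rfl fun g _ => ?_
    rw [map_smul]
    rfl
  obtain ⟨ψ, hψ⟩ := hFRA ℓ F hF G n' N P y₁ b w' h (Fin n → F) (mrep σ) hbv heq.symm.le
  have hid : ∀ v, ∑ m : N, mrep σ m (ψ (mrep σ (m : G)⁻¹ v)) = v := by
    intro v
    rw [finsum_eq_sum_of_fintype] at hψ
    have h2 := LinearMap.congr_fun hψ v
    rw [LinearMap.sum_apply] at h2
    exact h2
  -- a minimal `N`-stable subspace
  have hn : 0 < n := hσ.1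
  have hne : (⊤ : Submodule F (Fin n → F)) ≠ ⊥ := by
    have : Nonempty (Fin n) := ⟨⟨0, hn⟩⟩
    exact top_ne_bot
  obtain ⟨S, -, hS0, hS, hmin⟩ := H71.exists_min (N := N) (ρ := mrep σ) H71.stb_top hne
  obtain ⟨C, hC, hSC⟩ := H71.exists_compl (H71.nsoc_irr h.normal hσ) hS
  have hSn : Nontrivial S := Submodule.nontrivial_iff_ne_bot.2 hS0
  obtain ⟨k, τ, e, hτ, he⟩ := H55.irr_of_simple (subRep N (mrep σ) S hS) (by
    intro W hW
    have h1 : Stb N (mrep σ) (W.map S.subtype) := by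
      rintro m hm _ ⟨v, hv, rfl⟩
      exact ⟨subRep N (mrep σ) S hS ⟨m, hm⟩ v, hW _ v hv, rfl⟩
    rcases hmin _ h1 (Submodule.map_subtype_le S W) with h2 | h2
    · left
      rw [eq_bot_iff]
      intro x hx
      have h3 : (x : Fin n → F) ∈ W.map S.subtype := ⟨x, hx, rfl⟩
      rw [h2, Submodule.mem_bot] at h3
      exact (Submodule.mem_bot F).2 (Subtype.ext h3)
    · right
      rw [eq_top_iff]
      intro v _
      have h3 : (v : Fin n → F) ∈ W.map S.subtype := by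
        rw [h2]
        exact v.2
      obtain ⟨w, hw, hwv⟩ := h3
      have h4 : w = v := Subtype.ext hwv
      rwa [h4] at hw)
  -- the projection
  obtain ⟨q, hq⟩ : ∃ q : (Fin n → F) →ₗ[F] S, q = S.projectionOnto C hSC := ⟨_, rfl⟩
  have hqS : ∀ v : S, q v = v := by
    intro v
    rw [hq]
    exact Submodule.projectionOnto_apply_left hSC v
  have hqC : ∀ v ∈ C, q v = 0 := by
    intro v hv
    rw [hq]
    exact Submodule.projectionOnto_apply_right hSC ⟨v, hv⟩
  have hqN : ∀ (m : N) (v : Fin n → F), q (mrep σ m v) = subRep N (mrep σ) S hS m (q v) := by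
    intro m v
    have hv : v ∈ S ⊔ C := by
      rw [hSC.sup_eq_top]
      trivial
    obtain ⟨s, hs, t, ht, rfl⟩ := Submodule.mem_sup.1 hv
    rw [map_add, map_add, map_add, hqC t ht, hqC _ (hC m m.2 t ht), add_zero, add_zero,
      hqS ⟨s, hs⟩]
    exact hqS (subRep N (mrep σ) S hS m ⟨s, hs⟩)
  obtain ⟨Ψ, hΨ⟩ : ∃ Ψ : (Fin k → F) →ₗ[F] (Fin k → F),
      Ψ = e.toLinearMap ∘ₗ q ∘ₗ ψ ∘ₗ S.subtype ∘ₗ e.symm.toLinearMap := ⟨_, rfl⟩
  refine h.npj k τ hτ ?_ (LinearMap.toMatrix' Ψ) ?_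
  · apply mulVec_one_of
    intro w
    obtain ⟨v, rfl⟩ := e.surjective w
    rw [ev, finsum_eq_sum_of_fintype]
    have h2 : (∑ t : N, b t • τ t).mulVec (e v) = Matrix.toLin' (∑ t : N, b t • τ t) (e v) := rfl
    rw [h2, map_sum, LinearMap.sum_apply]
    have h3 : ∀ t : N, (Matrix.toLin' (b t • τ t)) (e v) =
        e (b t • subRep N (mrep σ) S hS t v) := by
      intro t
      rw [map_smul, map_smul, he]
      rfl
    rw [Finset.sum_congr rfl fun t _ => h3 t, ← map_sum]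
    congr 1
    apply Subtype.ext
    have h4 := hbv v
    rw [evV_apply] at h4
    rw [AddSubmonoidClass.coe_finsetSum]
    refine Eq.trans ?_ h4
    have h5 : ∑ᶠ g : G, b g • mrep σ g (v : Fin n → F) =
        ∑ᶠ t : N, b t • mrep σ t (v : Fin n → F) := by
      apply fsum_sub N
      intro x hx
      rw [h.supp x hx, zero_smul]
    rw [finsum_eq_sum_of_fintype, finsum_eq_sum_of_fintype] at h5
    exact h5.symm
  · apply mulVec_one_of
    intro w
    obtain ⟨v, rfl⟩ := e.surjective w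
    rw [finsum_eq_sum_of_fintype]
    have h2 : (∑ m : N, τ m * LinearMap.toMatrix' Ψ * τ m⁻¹).mulVec (e v) =
      Matrix.toLin' (∑ m : N, τ m * LinearMap.toMatrix' Ψ * τ m⁻¹) (e v) := rfl
    rw [h2, map_sum, LinearMap.sum_apply]
    have h3 : ∀ m : N, (Matrix.toLin' (τ m * LinearMap.toMatrix' Ψ * τ m⁻¹)) (e v) =
        e (q (mrep σ m (ψ (mrep σ (m : G)⁻¹ v)))) := by
      intro m
      have e1 : (τ m⁻¹).mulVec (e v) = e (subRep N (mrep σ) S hS m⁻¹ v) := (he m⁻¹ v).symm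
      have e2 : Ψ (e (subRep N (mrep σ) S hS m⁻¹ v)) = e (q (ψ (mrep σ (m : G)⁻¹ v))) := by
        rw [hΨ]
        change e (q (ψ ((e.symm (e (subRep N (mrep σ) S hS m⁻¹ v)) : S) : Fin n → F))) = _
        rw [LinearEquiv.symm_apply_apply]
        rfl
      rw [Matrix.toLin'_apply, ← Matrix.mulVec_mulVec, ← Matrix.mulVec_mulVec, e1,
        LinearMap.toMatrix'_mulVec, e2, hqN, he]
    rw [Finset.sum_congr rfl fun m _ => h3 m, ← map_sum, ← map_sum, hid, hqS]


end Pool.Agent.PP.CD2.H52
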