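import Pool.Agent.Helper66_D2.Stmts
import Pool.Agent.Helper91_D1.Fr1
import Pool.Agent.Helper2_D1.Key

/-!
# Squad PP, part D2: module KEY
-/

open scoped BigOperators

noncomputable section

namespace Pool.Agent.PP.CD2.H52

open Pool.Agent.Helper51_AWC Pool.Agent.Helper79_WRA Pool.Agent.PP Pool.Agent.PP.D1.H2

variable {F : Type} [Field F] {G : Type} [Group G] {V V' : Type} [AddCommGroup V] [Module F V]
  [AddCommGroup V'] [Module F V']

/-- an element of the group ring of `N` preserves the `N`-stable subspaces -/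
theorem evV_mem [Finite G] {ρ : Representation F G V} {N : Subgroup G} {a : G → F}
    (ha : SpF N a) {W : Submodule F V} (hW : Stb N ρ W) {v : V} (hv : v ∈ W) :
    evV ρ a v ∈ W := by
  classical
  have := Fintype.ofFinite G
  rw [D1.H91.evV_apply]
  refine W.sum_mem fun g _ => ?_
  by_cases hg : g ∈ N
  · exact W.smul_mem _ (hW g hg v hv)
  · rw [ha g hg, zero_smul]
    exact W.zero_mem

/-- an element of the group ring of `N` commutes with the maps over `N` -/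
theorem evV_hom [Finite G] {ρ : Representation F G V} {ρ' : Representation F G V'}
    {N : Subgroup G} {a : G → F} (ha : SpF N a) {f : V →ₗ[F] V'} (hf : HomOn N ρ ρ' f) (v : V) :
    f (evV ρ a v) = evV ρ' a (f v) := by
  classical
  have := Fintype.ofFinite G
  rw [D1.H91.evV_apply, D1.H91.evV_apply, map_sum]
  refine Finset.sum_congr rfl fun g _ => ?_
  rw [map_smul]
  by_cases hg : g ∈ N
  · rw [hf g hg]
  · rw [ha g hg, zero_smul, zero_smul]

section zs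

variable {ρ : Representation F G V} {N : Subgroup G} {fx : Submodule F V}
  {S : Set (V →ₗ[F] V)}

/-- (i) sums -/
theorem zs_sup (hfx : ∀ v, v ∈ fx ↔ ∀ e ∈ S, e v = 0)
    (hS : ∀ e ∈ S, ∀ W : Submodule F V, Stb N ρ W → ∀ v ∈ W, e v ∈ W)
    (hcp : ∀ W : Submodule F V, Stb N ρ W → ∃ C : Submodule F V, Stb N ρ C ∧ IsCompl W C)
    {Y Z₁ Z₂ : Submodule F V} (h1 : Stb N ρ Z₁) (h2 : Stb N ρ Z₂) (hY1 : Z₁ ⊓ fx ≤ Y)
    (hY2 : Z₂ ⊓ fx ≤ Y) : Stb N ρ (Z₁ ⊔ Z₂) ∧ (Z₁ ⊔ Z₂) ⊓ fx ≤ Y := by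
  constructor
  · intro n hn v hv
    obtain ⟨a, ha, b, hb, rfl⟩ := Submodule.mem_sup.1 hv
    rw [map_add]
    exact Submodule.add_mem_sup (h1 n hn a ha) (h2 n hn b hb)
  · have h12 : Stb N ρ (Z₁ ⊓ Z₂) := fun n hn v hv => ⟨h1 n hn v hv.1, h2 n hn v hv.2⟩
    obtain ⟨C, hC, hcpl⟩ := hcp _ h12
    rintro v ⟨hv, hvf⟩
    obtain ⟨a, ha, b, hb, rfl⟩ := Submodule.mem_sup.1 hv
    have hbT : b ∈ (Z₁ ⊓ Z₂) ⊔ C := by
      rw [hcpl.sup_eq_top]
      exact Submodule.mem_top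
    obtain ⟨w, hw, c, hc, hwc⟩ := Submodule.mem_sup.1 hbT
    have hcZ : c ∈ Z₂ := by
      have : c = b - w := by rw [← hwc]; abel
      rw [this]
      exact sub_mem hb hw.2
    set a' : V := a + w with ha'
    have haZ : a' ∈ Z₁ := add_mem ha hw.1
    have hsum : a + b = a' + c := by rw [ha', ← hwc]; abel
    have hfix : ∀ e ∈ S, e a' = 0 ∧ e c = 0 := by
      intro e he
      have e1 : e (a' + c) = 0 := by
        rw [← hsum]
        exact (hfx _).1 hvf e he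
      rw [map_add] at e1
      have e2 : e a' = -e c := eq_neg_of_add_eq_zero_left e1
      have m1 : e a' ∈ Z₁ := hS e he _ h1 a' haZ
      have m2 : e c ∈ Z₂ := hS e he _ h2 c hcZ
      have m3 : e c ∈ C := hS e he _ hC c hc
      have m5 : e c ∈ Z₁ := by
        have : e c = -e a' := by rw [e2, neg_neg]
        rw [this]
        exact neg_mem m1
      have m4 : e c ∈ (Z₁ ⊓ Z₂) ⊓ C := ⟨⟨m5, m2⟩, m3⟩
      rw [hcpl.inf_eq_bot, Submodule.mem_bot] at m4
      exact ⟨by rw [e2, m4, neg_zero], m4⟩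
    rw [hsum]
    exact add_mem (hY1 ⟨haZ, (hfx _).2 fun p hp => (hfix p hp).1⟩)
      (hY2 ⟨hcZ, (hfx _).2 fun p hp => (hfix p hp).2⟩)

/-- (ii) conjugates -/
theorem zs_map {L : Subgroup G} (hN : N.Normal) (hL' : Stb L ρ fx)
    {Y Z : Submodule F V} (h1 : Stb N ρ Z) (hY : Z ⊓ fx ≤ Y) (hL : Stb L ρ Y) {x : G}
    (hx : x ∈ L) : Stb N ρ (Z.map (ρ x)) ∧ (Z.map (ρ x)) ⊓ fx ≤ Y := by
  constructor
  · rintro n hn _ ⟨z, hz, rfl⟩
    refine ⟨ρ (x⁻¹ * n * x) z, h1 _ ?_ z hz, ?_⟩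
    · have := hN.conj_mem n hn x⁻¹
      rwa [inv_inv] at this
    · rw [← rho_mul, ← rho_mul]
      congr 2
      group
  · rintro _ ⟨⟨z, hz, rfl⟩, hf⟩
    apply hL x hx
    apply hY
    refine ⟨hz, ?_⟩
    have h2 := hL' x⁻¹ (inv_mem hx) _ hf
    rwa [rho_inv_self] at h2

/-- (iii) ranges -/
theorem zs_range (hfx : ∀ v, v ∈ fx ↔ ∀ e ∈ S, e v = 0)
    (hS : ∀ e ∈ S, ∀ W : Submodule F V, Stb N ρ W → ∀ v ∈ W, e v ∈ W)
    (hcp : ∀ W : Submodule F V, Stb N ρ W → ∃ C : Submodule F V, Stb N ρ C ∧ IsCompl W C)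
    {Y : Submodule F V} {f : V →ₗ[F] V} (hf : HomOn N ρ ρ f) (hfS : ∀ e ∈ S, ∀ v, f (e v) = e (f v))
    (hfY : ∀ v ∈ fx, f v ∈ Y) :
    Stb N ρ (LinearMap.range f) ∧ LinearMap.range f ⊓ fx ≤ Y := by
  constructor
  · rintro n hn _ ⟨v, rfl⟩
    exact ⟨ρ n v, hf n hn v⟩
  · have hk : Stb N ρ (LinearMap.ker f) := by
      intro n hn v hv
      rw [LinearMap.mem_ker] at hv ⊢
      rw [hf n hn, hv, map_zero]
    obtain ⟨C, hC, hcpl⟩ := hcp _ hk
    rintro _ ⟨⟨v, rfl⟩, hfix⟩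
    have hv : v ∈ LinearMap.ker f ⊔ C := by
      rw [hcpl.sup_eq_top]
      exact Submodule.mem_top
    obtain ⟨k, hk', c, hc, rfl⟩ := Submodule.mem_sup.1 hv
    rw [LinearMap.mem_ker] at hk'
    rw [map_add, hk', zero_add] at hfix ⊢
    apply hfY
    rw [hfx]
    intro e he
    have h1 : f (e c) = 0 := by
      rw [hfS e he]
      exact (hfx _).1 hfix e he
    have h2 : e c ∈ LinearMap.ker f ⊓ C := ⟨h1, hS e he _ hC c hc⟩
    rwa [hcpl.inf_eq_bot, Submodule.mem_bot] at h2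

end zs

/-- KEY -/
theorem key (hfex : FexStmt) (hsoc : SocStmt) (hSTW : StwStmt) : KeyStmt := by
  intro ℓ _ F _ hgood G _ _ n₀ N P y₁ b w hD V _ _ _ ρ hb hs Y hY1 hY2 hL
  have hN := hD.normal
  have hcp : ∀ W : Submodule F V, Stb N ρ W → ∃ C : Submodule F V, Stb N ρ C ∧ IsCompl W C :=
    (hsoc F G N hN).2.2 V ρ hs
  obtain ⟨f, hf, hf0, hfY⟩ := hfex ℓ F hgood G n₀ N P y₁ b w hD V ρ hb Y hY1 hY2
    fun n hn v hv => hL n hn.2 v hv
  obtain ⟨-, -, -, -, -, -, -, -, -, hfixL, -⟩ := hSTW ℓ F hgood G n₀ N P y₁ b w hD V ρ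
  -- supports
  obtain ⟨m, e, i, hU, -, hsum, hbw⟩ := hD.ums
  have hsb : SpF N (bY y₁ b) := by
    intro x hx
    rw [← hsum, Finset.sum_apply]
    exact Finset.sum_eq_zero fun t _ => (hU t).sb x fun h => hx h.1
  have hsw : SpF N w := by
    intro x hx
    have h1 : w = ∑ t, mulF (e t) w := by
      conv_lhs => rw [← hbw, ← hsum]
      have h2 : ∀ (s : Finset (Fin m)), mulF (∑ t ∈ s, e t) w = ∑ t ∈ s, mulF (e t) w := by
        classical
        have := Fintype.ofFinite G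
        intro s
        ext y
        rw [Finset.sum_apply]
        unfold mulF
        simp only [finsum_eq_sum_of_fintype, Finset.sum_apply, Finset.sum_mul]
        rw [Finset.sum_comm]
      exact h2 _
    rw [h1, Finset.sum_apply]
    exact Finset.sum_eq_zero fun t _ => (hU t).sw x fun h => hx h.1
  obtain ⟨S, hSdef⟩ : ∃ S : Set (V →ₗ[F] V),
      S = {evV ρ (bY y₁ b) - LinearMap.id, evV ρ w} := ⟨_, rfl⟩
  have hfx : ∀ v, v ∈ fixW ρ (bY y₁ b) w ↔ ∀ e ∈ S, e v = 0 := by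
    intro v
    rw [hSdef]
    constructor
    · intro hv e he
      rcases he with rfl | he
      · rw [LinearMap.sub_apply, hv.1]
        exact sub_self v
      · rw [Set.mem_singleton_iff] at he
        rw [he]
        exact hv.2
    · intro h
      refine ⟨?_, h _ (Or.inr rfl)⟩
      have := h _ (Or.inl rfl)
      rw [LinearMap.sub_apply] at this
      exact sub_eq_zero.1 this
  have hS : ∀ e ∈ S, ∀ W : Submodule F V, Stb N ρ W → ∀ v ∈ W, e v ∈ W := by
    rw [hSdef]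
    intro e he W hW v hv
    rcases he with rfl | he
    · rw [LinearMap.sub_apply]
      exact sub_mem (evV_mem hsb hW hv) hv
    · rw [Set.mem_singleton_iff] at he
      rw [he]
      exact evV_mem hsw hW hv
  have hfS : ∀ e ∈ S, ∀ v, f (e v) = e (f v) := by
    rw [hSdef]
    intro e he v
    rcases he with rfl | he
    · rw [LinearMap.sub_apply, LinearMap.sub_apply, map_sub, evV_hom hsb hf]
      rfl
    · rw [Set.mem_singleton_iff] at he
      rw [he]
      exact evV_hom hsw hf v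
  obtain ⟨Z, ⟨hZN, hZY⟩, hmax⟩ := (wellFounded_gt (α := Submodule F V)).has_min
    {Z : Submodule F V | Stb N ρ Z ∧ Z ⊓ fixW ρ (bY y₁ b) w ≤ Y}
    ⟨⊥, fun n _ v hv => by rw [Submodule.mem_bot] at hv ⊢; rw [hv, map_zero],
      by rw [bot_inf_eq]; exact bot_le⟩
  have hle : ∀ Z' : Submodule F V, Stb N ρ Z' ∧ Z' ⊓ fixW ρ (bY y₁ b) w ≤ Y → Z' ≤ Z := by
    intro Z' hZ'
    have h1 := zs_sup hfx hS hcp hZN hZ'.1 hZY hZ'.2
    have h2 := hmax _ h1
    have h3 : Z ⊔ Z' = Z := by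
      by_contra hne
      exact h2 (lt_of_le_of_ne le_sup_left (Ne.symm hne))
    rw [← h3]
    exact le_sup_right
  refine ⟨Z, ?_, ?_, hZY⟩
  · intro hZ0
    have h1 := hle _ (zs_range hfx hS hcp hf hfS hfY)
    rw [hZ0, le_bot_iff, LinearMap.range_eq_bot] at h1
    exact hf0 h1
  · intro g _ v hv
    have hg : g ∈ N ⊔ NY y₁ := by
      rw [hD.frat]
      exact Subgroup.mem_top g
    obtain ⟨n, hn, l, hl, rfl⟩ := Subgroup.mem_sup_of_normal_left.1 hg
    rw [rho_mul]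
    apply hZN n hn
    exact hle _ (zs_map hN hfixL hZN hZY hL hl) ⟨v, hv, rfl⟩

end Pool.Agent.PP.CD2.H52
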